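import Pool.Agent.N783.PF.Lat
import Pool.Agent.N434.PJ.GAPSQ

/-!
# PF/SQ: common isotropic subspaces

Written by helper482, adapted from `Pool.Agent.N530.PQ.GapSq` of helper530 and
`Pool.Agent.N434.PJ.GAPSQ` of helper434 (whose lemmas on chains of subspaces are used).
-/

set_option autoImplicit false
set_option linter.all false

open Polynomial Matrix NumberField
open scoped Classical

namespace Pool.Agent.N482.PF

open Module
open Pool.Agent.N783.PF
open Pool.Agent.N434.PJ (seqU seqU_mem seqU_dim')

/-! ### SQ -/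

/-- the orthogonal of a subspace of dimension `g` -/
theorem orth_dim {g : ℕ} {F L : Type} [Field F] [NumberField F] [Field L] [NumberField L]
    [Algebra F L] [FiniteDimensional F L] {f : (𝓞 F)[X]} {θ : L} (h : IsGen g f θ) {α : L} (hα : α ≠ 0) (e : Fin g → L) (he : LinearIndependent F e) :
    ∃ C : Submodule F L, finrank F C = g + 1 ∧ ∀ x, x ∈ C ↔ ∀ i, h.top (x * e i / α) = 0 := by
  obtain ⟨Λ, hΛ⟩ : ∃ Λ : L →ₗ[F] L →ₗ[F] F, ∀ y x, Λ y x = h.top (x * y / α) :=
    ⟨LinearMap.mk₂ F (fun y x => h.top (x * y / α))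
      (fun y y' x => by rw [← map_add]; congr 1; ring)
      (fun c y x => by rw [mul_smul_comm, smul_div_assoc, map_smul])
      (fun y x x' => by rw [← map_add]; congr 1; ring)
      (fun c y x => by rw [smul_mul_assoc, smul_div_assoc, map_smul]), fun _ _ => rfl⟩
  have hker : LinearMap.ker Λ = ⊥ := by
    rw [LinearMap.ker_eq_bot']
    intro y hy
    by_contra hy0
    have h1 : Λ y (θ ^ (2 * g) * α / y) = 0 := by rw [hy]; rfl
    rw [hΛ] at h1
    have h2 : θ ^ (2 * g) * α / y * y / α = h.basis (Fin.last (2 * g)) := by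
      rw [h.basis_apply, Fin.val_last]
      field_simp
    rw [h2] at h1
    simp [IsGen.top] at h1
  have hli : LinearIndependent F (fun i => Λ (e i)) := he.map' Λ hker
  let W : Submodule F (Module.Dual F L) := Submodule.span F (Set.range fun i => Λ (e i))
  have hW : finrank F W = g := by
    have := finrank_span_eq_card (R := F) hli
    simpa using this
  refine ⟨W.dualCoannihilator, ?_, ?_⟩
  · have h1 := Subspace.finrank_add_finrank_dualCoannihilator_eq W
    rw [hW, h.rank] at h1
    omega
  · intro x
    rw [Submodule.mem_dualCoannihilator]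
    constructor
    · intro hx i
      rw [← hΛ]
      exact hx _ (Submodule.subset_span ⟨i, rfl⟩)
    · intro hx φ hφ
      have h1 : W ≤ LinearMap.ker (Module.Dual.eval F L x) := by
        rw [Submodule.span_le]
        rintro _ ⟨i, rfl⟩
        rw [SetLike.mem_coe, LinearMap.mem_ker, Module.Dual.eval_apply]
        simp only
        rw [hΛ]
        exact hx i
      exact h1 hφ

/-- PF/SQ -/
theorem sq : S_SQ := by
  intro g F L _ _ _ _ _ f θ hg h α e hα he hJ hT hN
  have : FiniteDimensional F L := Module.finite_of_finrank_pos (by rw [h.rank]; omega)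
  have hθ : θ ≠ 0 := by
    have := h.basis.ne_zero ⟨1, by omega⟩
    rw [h.basis_apply] at this
    simpa using this
  let U : Submodule F L := Submodule.span F (Set.range fun i : Fin g => e (Fin.castLE (by omega) i))
  have heli : LinearIndependent F (fun i : Fin g => e (Fin.castLE (by omega) i)) :=
    he.comp _ (Fin.castLE_injective (by omega))
  obtain ⟨C, hCd, hC⟩ := orth_dim h hα (fun i : Fin g => e (Fin.castLE (by omega) i)) heli
  have hUd : finrank F U = g := by
    have := finrank_span_eq_card (R := F) heli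
    simpa using this
  have hUC : U ≤ C := by
    rw [Submodule.span_le]
    rintro _ ⟨i, rfl⟩
    rw [SetLike.mem_coe, hC]
    intro j
    exact hJ _ _ (by simp) (by simp)
  let T : L →ₗ[F] L := LinearMap.mulLeft F θ
  have hTU : U.map T ≤ C := by
    rw [Submodule.map_le_iff_le_comap, Submodule.span_le]
    rintro _ ⟨i, rfl⟩
    simp only [SetLike.mem_coe, Submodule.mem_comap]
    change θ * e (Fin.castLE _ i) ∈ C
    rw [hC]
    intro j
    rw [mul_assoc]
    exact hT _ _ (by simp) (by simp)
  have hTi : Function.Injective T := by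
    intro x y hxy
    exact mul_left_cancel₀ hθ hxy
  have hdim := seqU_dim' T hTi U C hUC hTU (by omega) (g - 1)
  have hpos : 0 < finrank F (seqU T U (g - 1)) := by omega
  obtain ⟨v, hv, hv0⟩ : ∃ v ∈ seqU T U (g - 1), v ≠ 0 := by
    rw [finrank_pos_iff_exists_ne_zero] at hpos
    obtain ⟨⟨v, hv⟩, hv0⟩ := hpos
    exact ⟨v, hv, fun h => hv0 (by simpa using h)⟩
  have hTp : ∀ i x, (T ^ i) x = θ ^ i * x := by
    intro i
    induction i with
    | zero => intro x; simp
    | succ i ih => intro x; rw [pow_succ, Module.End.mul_apply, ih]; simp [T]; ring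
  have hvU : ∀ i ≤ g - 1, θ ^ i * v ∈ U := by
    intro i hi
    rw [← hTp]
    exact seqU_mem T U (g - 1) v hv i hi
  -- orthogonality
  have hbil : ∀ z : L, (∀ i j : Fin (2 * g + 1), (i : ℕ) < g → (j : ℕ) < g →
      h.top (z * (e i * e j)) = 0) → ∀ x ∈ U, ∀ y ∈ U, h.top (z * (x * y)) = 0 := by
    intro z hz x hx y hy
    have h1 : ∀ j : Fin (2 * g + 1), (j : ℕ) < g → ∀ x ∈ U, h.top (z * (x * e j)) = 0 := by
      intro j hj x hx
      have : U ≤ LinearMap.ker (h.top ∘ₗ (LinearMap.mulLeft F z) ∘ₗ (LinearMap.mulRight F (e j))) := by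
        rw [Submodule.span_le]
        rintro _ ⟨i, rfl⟩
        exact hz _ _ (by simp) hj
      exact this hx
    have : U ≤ LinearMap.ker (h.top ∘ₗ (LinearMap.mulLeft F z) ∘ₗ (LinearMap.mulLeft F x)) := by
      rw [Submodule.span_le]
      rintro _ ⟨i, rfl⟩
      exact h1 _ (by simp) x hx
    exact this hy
  have hb0 := hbil (1 / α) (by
    intro i j hi hj
    rw [show 1 / α * (e i * e j) = e i * e j / α by ring]
    exact hJ i j hi hj)
  have hb1 := hbil (θ / α) (by
    intro i j hi hj
    rw [show θ / α * (e i * e j) = θ * (e i * e j) / α by ring]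
    exact hT i j hi hj)
  set c : L := v ^ 2 / α with hc
  have htop : ∀ m : ℕ, m ≤ 2 * g - 1 → h.top (θ ^ m * c) = 0 := by
    intro m hm
    rcases Nat.lt_or_ge (2 * (g - 1)) m with hlt | hge
    · obtain rfl : m = 2 * (g - 1) + 1 := by omega
      have := hb1 _ (hvU (g - 1) le_rfl) _ (hvU (g - 1) le_rfl)
      rw [← this]
      congr 1
      rw [hc]; ring
    · obtain ⟨a, b, ha, hb, rfl⟩ : ∃ a b, a ≤ g - 1 ∧ b ≤ g - 1 ∧ m = a + b :=
        ⟨min m (g - 1), m - min m (g - 1), by omega, by omega, by omega⟩
      have := hb0 _ (hvU a ha) _ (hvU b hb)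
      rw [← this]
      congr 1
      rw [hc]; ring
  have hcoef : ∀ n : ℕ, ∀ i : Fin (2 * g + 1), (i : ℕ) + n = 2 * g → 1 ≤ (i : ℕ) →
      h.basis.repr c i = 0 := by
    intro n
    induction n using Nat.strong_induction_on with
    | _ n ih =>
      intro i hi hi1
      have h1 := htop n (by omega)
      rw [← h.basis.sum_repr c, Finset.mul_sum, map_sum] at h1
      have h2 : ∀ j : Fin (2 * g + 1), h.top (θ ^ n * (h.basis.repr c j • h.basis j)) =
          if j = i then h.basis.repr c i else 0 := by
        intro j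
        rw [h.basis_apply, mul_smul_comm, map_smul, smul_eq_mul, ← pow_add]
        rcases lt_trichotomy (j : ℕ) (i : ℕ) with hl | hl | hl
        · rw [if_neg (fun hh => by rw [hh] at hl; omega)]
          have h3 : θ ^ (n + (j : ℕ)) = h.basis ⟨n + j, by omega⟩ := by rw [h.basis_apply]
          rw [h3]
          have : h.top (h.basis ⟨n + j, by omega⟩) = 0 := by
            simp only [IsGen.top, Basis.coord_apply, Basis.repr_self]
            rw [Finsupp.single_apply, if_neg]
            intro hh
            have := congrArg Fin.val hh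
            simp at this
            omega
          rw [this, mul_zero]
        · obtain rfl : j = i := Fin.ext hl
          rw [if_pos rfl]
          have h3 : θ ^ (n + (j : ℕ)) = h.basis (Fin.last (2 * g)) := by
            rw [h.basis_apply, Fin.val_last]; congr 1; omega
          rw [h3]
          simp [IsGen.top]
        · have := ih (2 * g - j) (by omega) j (by have := j.2; omega) (by omega)
          rw [this, zero_mul, if_neg (fun hh => by rw [hh] at hl; omega)]
      rw [Finset.sum_congr rfl fun j _ => h2 j] at h1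
      simpa using h1
  have hcK : c = algebraMap F L (h.basis.repr c 0) := by
    conv_lhs => rw [← h.basis.sum_repr c]
    rw [Finset.sum_eq_single (0 : Fin (2 * g + 1))]
    · rw [h.basis_apply, Algebra.smul_def]; simp
    · intro j _ hj
      rw [hcoef (2 * g - j) j (by have := j.2; omega) (by
        have : (j : ℕ) ≠ 0 := fun hh => hj (Fin.ext hh)
        omega), zero_smul]
    · simp
  set γ : F := h.basis.repr c 0 with hγ
  have hc0 : c ≠ 0 := by
    rw [hc]
    exact div_ne_zero (pow_ne_zero 2 hv0) hα
  have hγ0 : γ ≠ 0 := by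
    intro hh
    rw [hh, map_zero] at hcK
    exact hc0 hcK
  have hvα : v ^ 2 = algebraMap F L γ * α := by
    rw [← hcK, hc]; field_simp
  have hNv := congrArg (Algebra.norm F) hvα
  rw [map_mul, map_pow, Algebra.norm_algebraMap, h.rank] at hNv
  obtain ⟨n, hn⟩ := hN
  have hn0 : n ≠ 0 := by
    rintro rfl
    have : Algebra.norm F α = 0 := by rw [hn]; ring
    rw [Algebra.norm_eq_zero_iff] at this
    exact hα this
  -- `γ` is a square
  have hγs : IsSquare γ := by
    refine ⟨Algebra.norm F v / (n * γ ^ g), ?_⟩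
    field_simp
    rw [hNv, hn]
    ring
  obtain ⟨s, hs⟩ := hγs
  have hs0 : s ≠ 0 := by rintro rfl; exact hγ0 (by rw [hs]; ring)
  refine ⟨v / algebraMap F L s, ?_⟩
  have hs1 : algebraMap F L s ≠ 0 := by
    intro hh
    exact hs0 ((algebraMap F L).injective (by rw [hh, map_zero]))
  field_simp
  rw [hvα, hs, map_mul]
  ring

end Pool.Agent.N482.PF
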